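import Pool.Agent.V11134.Tour.Check

/-!
# MP_665821_co: a non-transitive tournament beats the transitive ones for four colours
-/

set_option autoImplicit false
set_option maxRecDepth 100000

namespace Pool.Agent.Results.MP_665821_co.StrictlySmaller

open Pool.Agent.V11134.Tour

/-- `T` is a tournament: of two distinct vertices exactly one dominates the other, and no vertex dominates
itself. -/
def IsTournament {N : ℕ} (T : Fin N → Fin N → Prop) : Prop :=
  ∀ u v, (T u v → ¬ T v u) ∧ (u ≠ v → T u v ∨ T v u)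

/-- The tournament is isomorphic to the transitive tournament. -/
def IsTransitive {N : ℕ} (T : Fin N → Fin N → Prop) : Prop :=
  ∃ e : Fin N ≃ Fin N, ∀ u v, T u v ↔ e u < e v

/-- `p` is a directed path of the tournament `T` whose edges avoid at least one of the `q` colours
(`c u v` is the colour of the edge `u → v`). -/
def IsAvoidingPath {N q : ℕ} (T : Fin N → Fin N → Prop) (c : Fin N → Fin N → Fin q)
    (p : List (Fin N)) : Prop :=
  p.Nodup ∧ ∃ k : Fin q, p.IsChain (fun u v => T u v ∧ c u v ≠ k)

/-- The largest number of vertices of a colour-avoiding directed path. -/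
noncomputable def longest {N q : ℕ} (T : Fin N → Fin N → Prop) (c : Fin N → Fin N → Fin q) : ℕ :=
  sSup {m | ∃ p, IsAvoidingPath T c p ∧ p.length = m}

/-- `f_{q,q-1}(N)`: the minimum over all `q`-edge-colourings of the transitive tournament on `N` vertices of
the largest length of a colour-avoiding directed path. -/
noncomputable def f (q N : ℕ) : ℕ :=
  sInf {m | ∃ c : Fin N → Fin N → Fin q, longest (fun u v => u < v) c = m}

theorem check_true : check Cert.cert [] 0 = true := by decide +kernel

theorem bddAbove_lengths {N q : ℕ} (T : Fin N → Fin N → Prop) (c : Fin N → Fin N → Fin q) :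
    BddAbove {m | ∃ p, IsAvoidingPath T c p ∧ p.length = m} := by
  refine ⟨N, ?_⟩
  rintro m ⟨p, hp, rfl⟩
  have := hp.1.length_le_card
  simpa using this

theorem chain_and {α : Type} {R S : α → α → Prop} : ∀ {l : List α}, l.IsChain R → l.IsChain S →
    l.IsChain (fun a b => R a b ∧ S a b)
  | [], _, _ => List.isChain_nil
  | [x], _, _ => List.isChain_singleton x
  | x :: y :: l, h1, h2 => by
    rw [List.isChain_cons_cons] at h1 h2 ⊢
    exact ⟨⟨h1.1, h2.1⟩, chain_and h1.2 h2.2⟩

/-- The lower bound for the transitive tournament. -/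
theorem seven_le_f : 7 ≤ f 4 10 := by
  refine le_csInf ⟨_, fun _ _ => 0, rfl⟩ ?_
  rintro m ⟨c, rfl⟩
  set χ : ℕ → ℕ → ℕ := fun i j =>
    if h : i < 10 ∧ j < 10 then (c ⟨i, h.1⟩ ⟨j, h.2⟩).val else 0 with hχ
  have hχ4 : ∀ i j, χ i j < 4 := by
    intro i j
    simp only [hχ]
    split_ifs
    · exact Fin.isLt _
    · norm_num
  obtain ⟨k, hk, p, h1, h2, h3, h4⟩ := check_sound Cert.cert [] 0 (by simp) check_true χ hχ4 (by simp)
  -- transfer to `Fin 10`
  set p' : List (Fin 10) := p.pmap (fun x hx => (⟨x, hx⟩ : Fin 10)) h2 with hp'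
  have hlen : p'.length = 7 := by rw [hp', List.length_pmap, h1]
  have hmap : p'.map Fin.val = p := by
    rw [hp', List.map_pmap]
    simp
  have hsort : p'.IsChain (fun u v => u < v) := by
    have h5 : (p'.map Fin.val).IsChain (fun u v => u < v) := by rw [hmap]; exact h3
    rw [List.isChain_map] at h5
    exact h5
  have hcol : p'.IsChain (fun u v => c u v ≠ ⟨k, hk⟩) := by
    have h5 : (p'.map Fin.val).IsChain (fun u v => χ u v ≠ k) := by rw [hmap]; exact h4
    rw [List.isChain_map] at h5
    refine List.IsChain.imp ?_ h5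
    intro u v huv heq
    apply huv
    simp only [hχ]
    rw [dif_pos ⟨u.2, v.2⟩, heq]
  have hnodup : p'.Nodup := by
    have h5 : p'.Pairwise (fun u v => u < v) := List.isChain_iff_pairwise.1 hsort
    exact h5.imp (fun h => h.ne)
  have hav : IsAvoidingPath (fun u v : Fin 10 => u < v) c p' :=
    ⟨hnodup, ⟨k, hk⟩, chain_and hsort hcol⟩
  rw [← hlen]
  exact le_csSup (bddAbove_lengths _ _) ⟨p', hav, rfl⟩

/-! ### The tournament -/

/-- Colours of the edges (`9`: no edge from the row vertex to the column vertex). -/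
def tab : List (List ℕ) :=
  [[9, 0, 2, 1, 0, 3, 3, 1, 3, 2], [9, 9, 2, 9, 2, 3, 3, 3, 3, 2], [9, 9, 9, 1, 1, 3, 3, 3, 3, 0],
   [9, 0, 9, 9, 0, 3, 3, 3, 3, 3], [9, 9, 9, 9, 9, 3, 3, 3, 3, 2], [9, 9, 9, 9, 9, 9, 2, 0, 1, 2],
   [9, 9, 9, 9, 9, 9, 9, 0, 9, 0], [9, 9, 9, 9, 9, 9, 9, 9, 1, 1], [9, 9, 9, 9, 9, 9, 2, 9, 9, 2],
   [9, 9, 9, 9, 9, 9, 9, 9, 9, 9]]

/-- Entry of the table. -/
def ent (u v : Fin 10) : ℕ := (tab.getD u.val []).getD v.val 9

/-- The tournament. -/
def T (u v : Fin 10) : Prop := ent u v < 4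

instance (u v : Fin 10) : Decidable (T u v) := inferInstanceAs (Decidable (ent u v < 4))

/-- The colouring. -/
def col (u v : Fin 10) : Fin 4 := Fin.ofNat 4 (ent u v)

/-- All paths with `k + 1` vertices avoiding the colour `m`. -/
def paths (m : Fin 4) : ℕ → List (List (Fin 10))
  | 0 => (List.finRange 10).map (fun v => [v])
  | k + 1 => (paths m k).flatMap (fun q =>
      ((List.finRange 10).filter (fun w => decide (w ∉ q) &&
        decide (T w (q.headD 0) ∧ col w (q.headD 0) ≠ m))).map (fun w => w :: q))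

theorem mem_paths (m : Fin 4) : ∀ (k : ℕ) (p : List (Fin 10)), p.length = k + 1 → p.Nodup →
    p.IsChain (fun u v => T u v ∧ col u v ≠ m) → p ∈ paths m k := by
  intro k
  induction k with
  | zero =>
    intro p hp _ _
    obtain ⟨v, rfl⟩ := List.length_eq_one_iff.1 hp
    exact List.mem_map.2 ⟨v, List.mem_finRange v, rfl⟩
  | succ k ih =>
    intro p hp h1 h2
    rcases p with _ | ⟨w, q⟩
    · simp at hp
    · rcases q with _ | ⟨x, q⟩
      · simp at hp
      · rw [List.isChain_cons_cons] at h2
        rw [List.nodup_cons] at h1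
        refine List.mem_flatMap.2 ⟨x :: q, ih _ (by simpa using hp) h1.2 h2.2,
          List.mem_map.2 ⟨w, ?_, rfl⟩⟩
        rw [List.mem_filter]
        refine ⟨List.mem_finRange w, ?_⟩
        rw [Bool.and_eq_true, decide_eq_true_eq, decide_eq_true_eq]
        exact ⟨h1.1, h2.1⟩

theorem paths_empty : ∀ m : Fin 4, paths m 6 = [] := by decide +kernel

theorem longest_le : longest T col ≤ 6 := by
  refine csSup_le' ?_
  rintro m ⟨p, ⟨hnd, k, hch⟩, rfl⟩
  by_contra hlt
  rw [not_le] at hlt
  have hmem := mem_paths k 6 (p.take 7) (by rw [List.length_take]; omega)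
    (hnd.sublist (List.take_sublist _ _)) (hch.take 7)
  rw [paths_empty] at hmem
  simp at hmem

/-- There are `q ≥ 4`, `N` and a non-transitive `q`-edge-coloured tournament on `N` vertices whose longest
colour-avoiding directed path has strictly fewer than `f_{q,q-1}(N)` vertices. -/
theorem result : ∃ (q N : ℕ) (T : Fin N → Fin N → Prop) (c : Fin N → Fin N → Fin q),
    4 ≤ q ∧ IsTournament T ∧ ¬ IsTransitive T ∧ longest T c < f q N := by
  refine ⟨4, 10, T, col, le_rfl, ?_, ?_, lt_of_le_of_lt longest_le seven_le_f⟩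
  · unfold IsTournament
    decide +kernel
  · rintro ⟨e, he⟩
    have h12 : T 1 2 := by decide +kernel
    have h23 : T 2 3 := by decide +kernel
    have h31 : T 3 1 := by decide +kernel
    have h1 := (he _ _).1 h12
    have h2 := (he _ _).1 h23
    have h3 := (he _ _).1 h31
    exact lt_asymm (h1.trans h2) h3

end Pool.Agent.Results.MP_665821_co.StrictlySmaller
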